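import Pool.Agent.H320.HSC.Tree
import Pool.Agent.H320.HSC.Blow
import Pool.Agent.H320.HSC.Met

set_option autoImplicit false

open Complex
open scoped Manifold ContDiff

namespace Pool.Agent.Results.MP_3413ae_ag.BlowUpTwoPoints

open Pool.Agent.H320.HSC

/-- There is a compact complex surface `X`, the blow-up of `ℙ¹ × ℙ¹` (the Hirzebruch surface `𝔽₀`)
at two distinct points, and a Kähler metric on `X` with everywhere positive holomorphic sectional
curvature. -/
theorem result : ∃ (X : Type) (_ : TopologicalSpace X) (_ : ChartedSpace (ℂ × ℂ) X),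
    IsManifold 𝓘(ℂ, ℂ × ℂ) ω X ∧ CompactSpace X ∧ T2Space X ∧
    (∃ (π : X → Sph × Sph) (S : Set (Sph × Sph)), IsBlowUp π S ∧ S.ncard = 2) ∧
    ∃ K : KahlerMetric X, PositiveHSC K :=
  ⟨XS, inferInstance, instChXS, manifold_XS, compact_XS, t2_XS, ⟨piX, SX, blowUp, SX_ncard⟩, KX,
    pos_KX good_unit⟩

end Pool.Agent.Results.MP_3413ae_ag.BlowUpTwoPoints
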